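import Pool.Agent.W781.LW.Stm

/-!
# Lu-Wenzel project, part LW-LEMA: the trace bound (Lemma A)
-/

set_option autoImplicit false

open Matrix Finset

namespace Pool.Agent.W991.LW

open Pool.Agent.W781.LW

variable {n : ℕ}

/-- the Hilbert-Schmidt pairing -/
noncomputable def ip (A C : Matrix (Fin n) (Fin n) ℂ) : ℂ := trace (A * Cᴴ)

theorem ip_eq (A C : Matrix (Fin n) (Fin n) ℂ) : ip A C = ∑ i, ∑ j, A i j * star (C i j) := by
  unfold ip
  simp only [trace, Matrix.diag, Matrix.mul_apply, conjTranspose_apply]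

theorem ip_self (A : Matrix (Fin n) (Fin n) ℂ) : ip A A = (fro A : ℂ) := by
  rw [ip_eq]
  unfold fro
  push_cast
  refine Finset.sum_congr rfl fun i _ => Finset.sum_congr rfl fun j _ => ?_
  rw [Complex.star_def, Complex.mul_conj, Complex.normSq_eq_norm_sq]
  push_cast
  rfl

theorem fro_nonneg (A : Matrix (Fin n) (Fin n) ℂ) : 0 ≤ fro A := by
  unfold fro
  positivity

/-- the matrix as a vector -/
noncomputable def vec (A : Matrix (Fin n) (Fin n) ℂ) : EuclideanSpace ℂ (Fin n × Fin n) :=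
  WithLp.toLp 2 (fun p => A p.1 p.2)

theorem vec_inner (A C : Matrix (Fin n) (Fin n) ℂ) : inner ℂ (vec C) (vec A) = ip A C := by
  rw [ip_eq, PiLp.inner_apply, Fintype.sum_prod_type]
  refine Finset.sum_congr rfl fun i _ => Finset.sum_congr rfl fun j _ => ?_
  simp [vec]

theorem vec_norm (A : Matrix (Fin n) (Fin n) ℂ) : ‖vec A‖ ^ 2 = fro A := by
  rw [EuclideanSpace.norm_sq_eq, Fintype.sum_prod_type]
  rfl

theorem cs (A C : Matrix (Fin n) (Fin n) ℂ) : ‖ip A C‖ ^ 2 ≤ fro A * fro C := by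
  rw [← vec_inner, ← vec_norm, ← vec_norm]
  have h := norm_inner_le_norm (𝕜 := ℂ) (vec C) (vec A)
  have h0 := norm_nonneg (inner ℂ (vec C) (vec A))
  calc ‖inner ℂ (vec C) (vec A)‖ ^ 2 ≤ (‖vec C‖ * ‖vec A‖) ^ 2 := pow_le_pow_left₀ h0 h 2
    _ = ‖vec A‖ ^ 2 * ‖vec C‖ ^ 2 := by ring

/-- Bessel inequality for orthogonal families with bounded members -/
theorem bessel {m : ℕ} (Z : Fin m → Matrix (Fin n) (Fin n) ℂ) (M : ℝ) (hM : 0 ≤ M)
    (hZ : ∀ a b, a ≠ b → ip (Z a) (Z b) = 0) (hZM : ∀ a, fro (Z a) ≤ M)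
    (W : Matrix (Fin n) (Fin n) ℂ) :
    ∑ a, ‖ip (Z a) W‖ ^ 2 ≤ M * fro W := by
  set V : Matrix (Fin n) (Fin n) ℂ := ∑ a, (starRingEnd ℂ (ip (Z a) W)) • Z a with hV
  set S : ℝ := ∑ a, ‖ip (Z a) W‖ ^ 2 with hS
  have hS0 : 0 ≤ S := by positivity
  have h1 : ip V W = (S : ℂ) := by
    rw [hV, hS]
    unfold ip
    rw [Finset.sum_mul, trace_sum]
    push_cast
    refine Finset.sum_congr rfl fun a _ => ?_
    rw [smul_mul, trace_smul, smul_eq_mul, mul_comm, Complex.mul_conj,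
      Complex.normSq_eq_norm_sq]
    push_cast
    rfl
  have h2 : fro V = ∑ a, ‖ip (Z a) W‖ ^ 2 * fro (Z a) := by
    have h3 : ip V V = ((∑ a, ‖ip (Z a) W‖ ^ 2 * fro (Z a) : ℝ) : ℂ) := by
      have h4 : ∀ a, ip (Z a) V = ip (Z a) W * (fro (Z a) : ℂ) := by
        intro a
        rw [hV]
        unfold ip
        rw [conjTranspose_sum, Finset.mul_sum, trace_sum, Finset.sum_eq_single a]
        · rw [conjTranspose_smul, Matrix.mul_smul, trace_smul, smul_eq_mul]
          rw [show trace (Z a * (Z a)ᴴ) = (fro (Z a) : ℂ) from ip_self (Z a)]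
          congr 1
          rw [Complex.star_def, Complex.conj_conj]
        · intro b _ hb
          rw [conjTranspose_smul, Matrix.mul_smul, trace_smul, smul_eq_mul]
          rw [show trace (Z a * (Z b)ᴴ) = 0 from hZ a b (Ne.symm hb), mul_zero]
        · intro h
          exact absurd (Finset.mem_univ a) h
      have h5 : ∀ T : Matrix (Fin n) (Fin n) ℂ,
          ip V T = ∑ a, (starRingEnd ℂ (ip (Z a) W)) * ip (Z a) T := by
        intro T
        rw [hV]
        unfold ip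
        rw [Finset.sum_mul, trace_sum]
        refine Finset.sum_congr rfl fun a _ => ?_
        rw [Matrix.smul_mul, trace_smul, smul_eq_mul]
      rw [h5 V]
      push_cast
      refine Finset.sum_congr rfl fun a _ => ?_
      rw [h4 a, ← mul_assoc]
      congr 1
      rw [mul_comm, Complex.mul_conj, Complex.normSq_eq_norm_sq]
      push_cast
      rfl
    rw [ip_self] at h3
    exact_mod_cast h3
  have h3 : fro V ≤ M * S := by
    rw [h2, hS, Finset.mul_sum]
    refine Finset.sum_le_sum fun a _ => ?_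
    rw [mul_comm]
    exact mul_le_mul_of_nonneg_right (hZM a) (by positivity)
  have h4 := cs V W
  rw [h1] at h4
  have h5 : ‖(S : ℂ)‖ ^ 2 = S ^ 2 := by
    rw [Complex.norm_real, Real.norm_eq_abs, sq_abs]
  rw [h5] at h4
  have h6 : S ^ 2 ≤ M * S * fro W :=
    h4.trans (mul_le_mul_of_nonneg_right h3 (fro_nonneg W))
  rcases hS0.eq_or_lt with h | h
  · rw [← h]
    exact mul_nonneg hM (fro_nonneg W)
  · nlinarith

theorem adj (B Z V : Matrix (Fin n) (Fin n) ℂ) : ip (com B Z) V = ip Z (com Bᴴ V) := by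
  unfold ip com
  rw [conjTranspose_sub, conjTranspose_mul, conjTranspose_mul, conjTranspose_conjTranspose,
    sub_mul, mul_sub, trace_sub, trace_sub]
  congr 1
  · rw [Matrix.mul_assoc, trace_mul_comm, Matrix.mul_assoc]
  · rw [Matrix.mul_assoc]

theorem ip_single (Y : Matrix (Fin n) (Fin n) ℂ) (i j : Fin n) :
    ip Y (Matrix.single i j (1 : ℂ)) = Y i j := by
  rw [ip_eq, Finset.sum_eq_single i, Finset.sum_eq_single j]
  · simp
  · intro k _ hk
    simp [hk.symm]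
  · intro h
    exact absurd (Finset.mem_univ j) h
  · intro k _ hk
    apply Finset.sum_eq_zero
    intro l _
    simp [hk.symm]
  · intro h
    exact absurd (Finset.mem_univ i) h

theorem key (B V : Matrix (Fin n) (Fin n) ℂ) :
    ip (com Bᴴ V) (com Bᴴ V) + ip (B * V + V * B) (B * V + V * B) =
      trace (DD B * (V * Vᴴ + Vᴴ * V)) := by
  unfold ip com DD
  simp only [conjTranspose_sub, conjTranspose_add, conjTranspose_mul, conjTranspose_conjTranspose,
    sub_mul, mul_sub, add_mul, mul_add, trace_sub, trace_add]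
  have e1 : trace (Bᴴ * V * (Vᴴ * B)) = trace (B * Bᴴ * (V * Vᴴ)) := by
    rw [show Bᴴ * V * (Vᴴ * B) = (Bᴴ * (V * Vᴴ)) * B by simp only [Matrix.mul_assoc],
      trace_mul_comm]
    simp only [Matrix.mul_assoc]
  have e2 : trace (V * Bᴴ * (B * Vᴴ)) = trace (Bᴴ * B * (Vᴴ * V)) := by
    rw [show V * Bᴴ * (B * Vᴴ) = V * (Bᴴ * B * Vᴴ) by simp only [Matrix.mul_assoc],
      trace_mul_comm]
    simp only [Matrix.mul_assoc]
  have e3 : trace (B * V * (Vᴴ * Bᴴ)) = trace (Bᴴ * B * (V * Vᴴ)) := by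
    rw [show B * V * (Vᴴ * Bᴴ) = (B * (V * Vᴴ)) * Bᴴ by simp only [Matrix.mul_assoc],
      trace_mul_comm]
    simp only [Matrix.mul_assoc]
  have e4 : trace (V * B * (Bᴴ * Vᴴ)) = trace (B * Bᴴ * (Vᴴ * V)) := by
    rw [show V * B * (Bᴴ * Vᴴ) = V * (B * Bᴴ * Vᴴ) by simp only [Matrix.mul_assoc],
      trace_mul_comm]
    simp only [Matrix.mul_assoc]
  have e5 : trace (V * Bᴴ * (Vᴴ * B)) = trace (B * V * (Bᴴ * Vᴴ)) := by
    rw [show V * Bᴴ * (Vᴴ * B) = (V * Bᴴ * Vᴴ) * B by simp only [Matrix.mul_assoc],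
      trace_mul_comm]
    simp only [Matrix.mul_assoc]
  have e6 : trace (Bᴴ * V * (B * Vᴴ)) = trace (V * B * (Vᴴ * Bᴴ)) := by
    rw [show Bᴴ * V * (B * Vᴴ) = Bᴴ * (V * B * Vᴴ) by simp only [Matrix.mul_assoc],
      trace_mul_comm]
    simp only [Matrix.mul_assoc]
  rw [e1, e2, e3, e4, e5, e6]
  ring

theorem DD_diag (B : Matrix (Fin n) (Fin n) ℂ) (i : Fin n) :
    DD B i i = ((∑ j, (‖B i j‖ ^ 2 + ‖B j i‖ ^ 2) : ℝ) : ℂ) := by
  unfold DD
  rw [Matrix.add_apply, Matrix.mul_apply, Matrix.mul_apply, Finset.sum_add_distrib]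
  push_cast
  congr 1
  · refine Finset.sum_congr rfl fun j _ => ?_
    rw [conjTranspose_apply, Complex.star_def, Complex.mul_conj, Complex.normSq_eq_norm_sq]
    push_cast
    rfl
  · refine Finset.sum_congr rfl fun j _ => ?_
    rw [conjTranspose_apply, Complex.star_def, mul_comm, Complex.mul_conj,
      Complex.normSq_eq_norm_sq]
    push_cast
    rfl

theorem dg_eq (B : Matrix (Fin n) (Fin n) ℂ) (i : Fin n) :
    dg B i = ∑ j, (‖B i j‖ ^ 2 + ‖B j i‖ ^ 2) := by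
  unfold dg
  rw [DD_diag, Complex.ofReal_re]

theorem dg_nonneg (B : Matrix (Fin n) (Fin n) ℂ) (i : Fin n) : 0 ≤ dg B i := by
  rw [dg_eq]
  positivity

theorem DD_eq (B : Matrix (Fin n) (Fin n) ℂ) (hD : ∀ i j, i ≠ j → DD B i j = 0) :
    DD B = diagonal (fun i => (dg B i : ℂ)) := by
  ext i j
  by_cases h : i = j
  · subst h
    rw [diagonal_apply_eq, dg_eq, DD_diag]
  · rw [diagonal_apply_ne _ h, hD i j h]

theorem tr_DD (B V : Matrix (Fin n) (Fin n) ℂ) (hD : ∀ i j, i ≠ j → DD B i j = 0) :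
    trace (DD B * (V * Vᴴ + Vᴴ * V)) =
      ((∑ i, ∑ j, (dg B i + dg B j) * ‖V i j‖ ^ 2 : ℝ) : ℂ) := by
  have h1 : trace (DD B * (V * Vᴴ + Vᴴ * V)) =
      ∑ i, (dg B i : ℂ) * (∑ j, ((‖V i j‖ ^ 2 : ℝ) : ℂ) + ∑ j, ((‖V j i‖ ^ 2 : ℝ) : ℂ)) := by
    rw [DD_eq B hD]
    unfold trace
    refine Finset.sum_congr rfl fun i _ => ?_
    rw [Matrix.diag_apply, diagonal_mul, Matrix.add_apply, Matrix.mul_apply, Matrix.mul_apply]
    congr 2
    · refine Finset.sum_congr rfl fun j _ => ?_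
      rw [conjTranspose_apply, Complex.star_def, Complex.mul_conj, Complex.normSq_eq_norm_sq]
    · refine Finset.sum_congr rfl fun j _ => ?_
      rw [conjTranspose_apply, Complex.star_def, mul_comm, Complex.mul_conj,
        Complex.normSq_eq_norm_sq]
  rw [h1]
  have h2 : (∑ i, ∑ j, (dg B i + dg B j) * ‖V i j‖ ^ 2 : ℝ) =
      ∑ i, dg B i * (∑ j, ‖V i j‖ ^ 2 + ∑ j, ‖V j i‖ ^ 2) := by
    have h3 : ∑ i, ∑ j, dg B j * ‖V i j‖ ^ 2 = ∑ i, ∑ j, dg B i * ‖V j i‖ ^ 2 :=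
      Finset.sum_comm
    simp only [add_mul, Finset.sum_add_distrib, mul_add, Finset.mul_sum]
    rw [h3]
  rw [h2]
  push_cast
  rfl

/-- step (1) -/
theorem step1 (B V : Matrix (Fin n) (Fin n) ℂ) (hD : ∀ i j, i ≠ j → DD B i j = 0) :
    fro (com Bᴴ V) ≤ ∑ i, ∑ j, (dg B i + dg B j) * ‖V i j‖ ^ 2 := by
  have h1 := key B V
  rw [tr_DD B V hD, ip_self, ip_self] at h1
  have h2 : fro (com Bᴴ V) + fro (B * V + V * B) =
      ∑ i, ∑ j, (dg B i + dg B j) * ‖V i j‖ ^ 2 := by exact_mod_cast h1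
  have h3 := fro_nonneg (B * V + V * B)
  linarith

/-- step (3) -/
theorem step3 (B Z : Matrix (Fin n) (Fin n) ℂ) (hD : ∀ i j, i ≠ j → DD B i j = 0) :
    ∑ i, ∑ j, (dg B i + dg B j)⁻¹ * ‖com B Z i j‖ ^ 2 ≤ fro Z := by
  set q : ℝ := ∑ i, ∑ j, (dg B i + dg B j)⁻¹ * ‖com B Z i j‖ ^ 2 with hq
  set V : Matrix (Fin n) (Fin n) ℂ :=
    Matrix.of (fun i j => (((dg B i + dg B j)⁻¹ : ℝ) : ℂ) * com B Z i j) with hV
  have hs : ∀ i j, 0 ≤ dg B i + dg B j := fun i j => add_nonneg (dg_nonneg B i) (dg_nonneg B j)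
  have hq0 : 0 ≤ q := by
    rw [hq]
    refine Finset.sum_nonneg fun i _ => Finset.sum_nonneg fun j _ => ?_
    exact mul_nonneg (inv_nonneg.mpr (hs i j)) (by positivity)
  have h1 : ip (com B Z) V = (q : ℂ) := by
    rw [ip_eq, hq]
    push_cast
    refine Finset.sum_congr rfl fun i _ => Finset.sum_congr rfl fun j _ => ?_
    rw [hV, Matrix.of_apply, star_mul', Complex.star_def, Complex.conj_ofReal]
    have : com B Z i j * (starRingEnd ℂ) (com B Z i j) = ((‖com B Z i j‖ ^ 2 : ℝ) : ℂ) := by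
      rw [Complex.mul_conj, Complex.normSq_eq_norm_sq]
    push_cast at this ⊢
    rw [← this]
    ring
  rw [adj] at h1
  have h2 := cs Z (com Bᴴ V)
  rw [h1] at h2
  have h5 : ‖(q : ℂ)‖ ^ 2 = q ^ 2 := by
    rw [Complex.norm_real, Real.norm_eq_abs, sq_abs]
  rw [h5] at h2
  have h3 := step1 B V hD
  have h4 : ∑ i, ∑ j, (dg B i + dg B j) * ‖V i j‖ ^ 2 = q := by
    rw [hq]
    refine Finset.sum_congr rfl fun i _ => Finset.sum_congr rfl fun j _ => ?_
    rw [hV, Matrix.of_apply, norm_mul, Complex.norm_real, Real.norm_eq_abs,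
      abs_of_nonneg (inv_nonneg.mpr (hs i j)), mul_pow]
    rcases (hs i j).eq_or_lt with h | h
    · rw [← h]
      simp
    · field_simp
  rw [h4] at h3
  have h6 : q ^ 2 ≤ fro Z * q :=
    h2.trans (mul_le_mul_of_nonneg_left h3 (fro_nonneg Z))
  rcases hq0.eq_or_lt with h | h
  · rw [← h]
    exact fro_nonneg Z
  · nlinarith

theorem fro_single (i j : Fin n) (f : Fin n → Fin n → ℝ) :
    ∑ k, ∑ l, f k l * ‖Matrix.single i j (1 : ℂ) k l‖ ^ 2 = f i j := by
  rw [Finset.sum_eq_single i, Finset.sum_eq_single j]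
  · simp
  · intro k _ hk
    simp [hk.symm]
  · intro h
    exact absurd (Finset.mem_univ j) h
  · intro k _ hk
    apply Finset.sum_eq_zero
    intro l _
    simp [hk.symm]
  · intro h
    exact absurd (Finset.mem_univ i) h

theorem ww_nonneg (s : ℝ) : 0 ≤ ww s := by
  unfold ww
  split_ifs with h
  · have : 1 / s ≤ 1 := by
      rw [div_le_one (by linarith)]
      exact h.le
    linarith
  · exact le_rfl

/-- step (4), one entry -/
theorem step4 (B Z : Matrix (Fin n) (Fin n) ℂ) (hD : ∀ i j, i ≠ j → DD B i j = 0) (i j : Fin n) :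
    ‖com B Z i j‖ ^ 2 ≤ (dg B i + dg B j)⁻¹ * ‖com B Z i j‖ ^ 2 +
      ww (dg B i + dg B j) * ‖ip Z (com Bᴴ (Matrix.single i j (1 : ℂ)))‖ ^ 2 := by
  have hs : 0 ≤ dg B i + dg B j := add_nonneg (dg_nonneg B i) (dg_nonneg B j)
  have hY : ip Z (com Bᴴ (Matrix.single i j (1 : ℂ))) = com B Z i j := by
    rw [← adj, ip_single]
  rw [hY]
  set y : ℝ := ‖com B Z i j‖ ^ 2 with hy
  have hy0 : 0 ≤ y := by positivity
  rcases hs.eq_or_lt with h | h
  · -- s = 0
    have h1 := step1 B (Matrix.single i j (1 : ℂ)) hD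
    rw [fro_single i j (fun k l => dg B k + dg B l)] at h1
    have h2 := cs Z (com Bᴴ (Matrix.single i j (1 : ℂ)))
    rw [hY] at h2
    have h3 : fro (com Bᴴ (Matrix.single i j (1 : ℂ))) = 0 :=
      le_antisymm (by linarith) (fro_nonneg _)
    rw [h3, mul_zero] at h2
    have h4 : y = 0 := le_antisymm h2 hy0
    rw [h4]
    simp
  · unfold ww
    split_ifs with h1
    · have : (dg B i + dg B j)⁻¹ * y + (1 - 1 / (dg B i + dg B j)) * y = y := by
        rw [one_div]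
        ring
      linarith
    · have h2 : 1 ≤ (dg B i + dg B j)⁻¹ := by
        rw [one_le_inv₀ h]
        linarith
      nlinarith

theorem lema : S_LEMA := by
  intro n m B Z M hM hD hZ hZM
  have hper : ∀ a, fro (com B (Z a)) ≤ fro (Z a) +
      ∑ i, ∑ j, ww (dg B i + dg B j) *
        ‖ip (Z a) (com Bᴴ (Matrix.single i j (1 : ℂ)))‖ ^ 2 := by
    intro a
    have h1 : fro (com B (Z a)) ≤ ∑ i, ∑ j, ((dg B i + dg B j)⁻¹ * ‖com B (Z a) i j‖ ^ 2 +
        ww (dg B i + dg B j) * ‖ip (Z a) (com Bᴴ (Matrix.single i j (1 : ℂ)))‖ ^ 2) :=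
      Finset.sum_le_sum fun i _ => Finset.sum_le_sum fun j _ => step4 B (Z a) hD i j
    simp only [Finset.sum_add_distrib] at h1
    have h2 := step3 B (Z a) hD
    linarith
  calc ∑ a, fro (com B (Z a)) ≤ ∑ a, (fro (Z a) +
      ∑ i, ∑ j, ww (dg B i + dg B j) *
        ‖ip (Z a) (com Bᴴ (Matrix.single i j (1 : ℂ)))‖ ^ 2) :=
        Finset.sum_le_sum fun a _ => hper a
    _ = (∑ a, fro (Z a)) + ∑ i, ∑ j, ww (dg B i + dg B j) *
          ∑ a, ‖ip (Z a) (com Bᴴ (Matrix.single i j (1 : ℂ)))‖ ^ 2 := by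
        rw [Finset.sum_add_distrib]
        congr 1
        rw [Finset.sum_comm]
        refine Finset.sum_congr rfl fun i _ => ?_
        rw [Finset.sum_comm]
        refine Finset.sum_congr rfl fun j _ => ?_
        rw [Finset.mul_sum]
    _ ≤ _ := by
        refine add_le_add le_rfl ?_
        rw [Finset.mul_sum]
        refine Finset.sum_le_sum fun i _ => ?_
        rw [Finset.mul_sum]
        refine Finset.sum_le_sum fun j _ => ?_
        have h1 := bessel Z M hM hZ hZM (com Bᴴ (Matrix.single i j (1 : ℂ)))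
        have h2 := mul_le_mul_of_nonneg_left h1 (ww_nonneg (dg B i + dg B j))
        linarith

end Pool.Agent.W991.LW

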